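import Mathlib
import Pool.Agent.Helper12.Defs

set_option autoImplicit false
set_option linter.all false

namespace Pool.Agent.Helper45.Cern
open Pool.Agent.Helper12.TwoLen

section comm
variable {A : Type*} [CommGroup A]

theorem finite_pow (h : {x : A | x * x = 1}.Finite) (k : ℕ) :
    {x : A | x ^ (2 ^ k : ℕ) = 1}.Finite := by
  induction k with
  | zero =>
    refine (Set.finite_singleton (1 : A)).subset ?_
    intro x hx
    simpa using hx
  | succ k ih =>
    have : {x : A | x ^ (2 ^ (k + 1) : ℕ) = 1} = (fun x : A => x * x) ⁻¹' {x : A | x ^ (2 ^ k : ℕ) = 1} := by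
      ext x
      simp only [Set.mem_setOf_eq, Set.mem_preimage]
      rw [pow_succ, mul_comm, pow_mul, pow_two]
    rw [this]
    refine ih.preimage' ?_
    intro b _
    rcases Set.eq_empty_or_nonempty ((fun x : A => x * x) ⁻¹' {b}) with he | ⟨x0, hx0⟩
    · rw [he]; exact Set.finite_empty
    · refine (h.image (fun y => x0 * y)).subset ?_
      intro x hx
      refine ⟨x0⁻¹ * x, ?_, by simp⟩
      simp only [Set.mem_preimage, Set.mem_singleton_iff] at hx hx0
      simp only [Set.mem_setOf_eq]
      calc x0⁻¹ * x * (x0⁻¹ * x) = (x0 * x0)⁻¹ * (x * x) := by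
            rw [mul_inv]; simp only [mul_comm, mul_left_comm, mul_assoc]
        _ = 1 := by rw [hx, hx0]; simp

theorem torsion (hE : ∀ x : A, E2 x) : IsMulTorsion A := by
  intro x
  obtain ⟨k, hk⟩ := hE x
  exact isOfFinOrder_iff_pow_eq_one.2 ⟨2 ^ k, by positivity, hk⟩

theorem quot_finite (hE : ∀ x : A, E2 x) (h : {x : A | x * x = 1}.Finite) (I : Subgroup A) :
    {q : A ⧸ I | q * q = 1}.Finite := by
  by_contra hinf
  obtain ⟨t, ht, htc⟩ := Set.Infinite.exists_subset_card_eq hinf (h.toFinset.card + 1)
  set T : Set A := Quotient.out '' (t : Set (A ⧸ I)) with hT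
  have hTf : T.Finite := (Finset.finite_toSet t).image _
  let F : Subgroup A := Subgroup.closure T
  haveI : Finite T := hTf
  haveI hFG : Group.FG F := Group.closure_finite_fg T
  have hFt : IsMulTorsion F := torsion (fun x => by
    obtain ⟨k, hk⟩ := hE x
    exact ⟨k, Subtype.ext (by simpa using hk)⟩)
  haveI hFfin : Finite F := CommGroup.finite_of_fg_isMulTorsion F hFt
  let sq : F →* F := powMonoidHom 2
  let f : F →* A ⧸ I := (QuotientGroup.mk' I).comp F.subtype
  -- index of squares
  have h1 : sq.range.index = Nat.card sq.ker := by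
    have e1 : Nat.card sq.ker * sq.ker.index = Nat.card F := Subgroup.card_mul_index _
    have e2 : Nat.card sq.range * sq.range.index = Nat.card F := Subgroup.card_mul_index _
    have e3 : sq.ker.index = Nat.card sq.range := Subgroup.index_ker sq
    have e4 : 0 < Nat.card sq.range := Nat.card_pos
    rw [e3] at e1
    rw [← e1, mul_comm] at e2
    exact Nat.eq_of_mul_eq_mul_right e4 e2
  have h2 : Nat.card sq.ker ≤ h.toFinset.card := by
    have h2' : Nat.card sq.ker ≤ Nat.card h.toFinset := by
      haveI : Finite h.toFinset := inferInstance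
      refine Nat.card_le_card_of_injective (fun x : sq.ker => (⟨((x : F) : A), ?_⟩ : h.toFinset)) ?_
      · have hx := x.2
        rw [MonoidHom.mem_ker] at hx
        have hx' : ((sq (x : F) : F) : A) = 1 := by rw [hx]; rfl
        simp only [Set.Finite.mem_toFinset, Set.mem_setOf_eq]
        have : ((sq (x : F) : F) : A) = ((x : F) : A) * ((x : F) : A) := by
          simp [sq, pow_two]
        rw [← this, hx']
      · intro x y hxy
        simp only [Subtype.mk.injEq] at hxy
        exact Subtype.ext (Subtype.ext hxy)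
    rw [Nat.card_eq_fintype_card (α := h.toFinset), Fintype.card_coe] at h2'
    exact h2'
  have hfT : ∀ x ∈ T, (QuotientGroup.mk' I x : A ⧸ I) * QuotientGroup.mk' I x = 1 := by
    rintro x ⟨q, hq, rfl⟩
    have := ht hq
    simp only [Set.mem_setOf_eq] at this
    simpa using this
  have hfsq : ∀ x : F, f x * f x = 1 := by
    rintro ⟨x, hx⟩
    show (QuotientGroup.mk' I x : A ⧸ I) * QuotientGroup.mk' I x = 1
    induction hx using Subgroup.closure_induction with
    | mem x hx => exact hfT x hx
    | one => simp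
    | mul x y _ _ ihx ihy =>
      rw [map_mul]
      calc _ = ((QuotientGroup.mk' I) x * (QuotientGroup.mk' I) x) * ((QuotientGroup.mk' I) y * (QuotientGroup.mk' I) y) := by
              simp only [mul_comm, mul_left_comm, mul_assoc]
        _ = 1 := by rw [ihx, ihy, one_mul]
    | inv x _ ihx =>
      rw [map_inv, ← mul_inv, ihx, inv_one]
  have h3 : sq.range ≤ f.ker := by
    rintro _ ⟨x, rfl⟩
    rw [MonoidHom.mem_ker]
    have : sq x = x * x := by simp [sq, pow_two]
    rw [this, map_mul]
    exact hfsq x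
  have h4 : f.ker.index ≤ sq.range.index := by
    apply Nat.le_of_dvd
    · exact Nat.pos_of_ne_zero Subgroup.index_ne_zero_of_finite
    · exact Subgroup.index_dvd_of_le h3
  have h5 : Nat.card f.range = f.ker.index := (Subgroup.index_ker f).symm
  have h6 : t.card ≤ Nat.card f.range := by
    haveI : Finite f.range := Finite.of_surjective f.rangeRestrict f.rangeRestrict_surjective
    have : Nat.card t ≤ Nat.card f.range := by
      refine Nat.card_le_card_of_injective (fun q : t => (⟨(q : A ⧸ I), ?_⟩ : f.range)) ?_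
      · refine ⟨⟨Quotient.out (q : A ⧸ I), Subgroup.subset_closure ⟨q, q.2, rfl⟩⟩, ?_⟩
        show (QuotientGroup.mk' I (Quotient.out (q : A ⧸ I)) : A ⧸ I) = q
        exact Quotient.out_eq _
      · intro x y hxy
        have h7 := congrArg (fun z : f.range => (z : A ⧸ I)) hxy
        exact Subtype.ext h7
    simpa using this
  omega


/-- DCC in an abelian 2-group with finitely many involutions. -/
theorem dcc_comm (hE : ∀ x : A, E2 x) (h : {x : A | x * x = 1}.Finite) (H : ℕ → Subgroup A)
    (hH : Antitone H) : ∃ N : ℕ, ∀ n ≥ N, H n = H N := by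
  classical
  set I : Subgroup A := ⨅ n, H n with hI
  have hfin := quot_finite hE h I
  have hch : ∀ q : A ⧸ I, ∃ n, q = 1 ∨ Quotient.out q ∉ H n := by
    intro q
    by_cases hq : q = 1
    · exact ⟨0, Or.inl hq⟩
    · have : Quotient.out q ∉ I := by
        intro hmem
        apply hq
        rw [← Quotient.out_eq q]
        exact (QuotientGroup.eq_one_iff _).2 hmem
      by_contra hcon
      push Not at hcon
      exact this (Subgroup.mem_iInf.2 fun n => (hcon n).2)
  choose ν hν using hch
  obtain ⟨N, hN⟩ : ∃ N, ∀ q ∈ {q : A ⧸ I | q * q = 1}, ν q ≤ N := by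
    obtain ⟨N, hN⟩ := (hfin.image ν).bddAbove
    exact ⟨N, fun q hq => hN ⟨q, hq, rfl⟩⟩
  have key : ∀ x ∈ H N, x * x ∈ I → x ∈ I := by
    intro x hx hxx
    have hq : ((QuotientGroup.mk x : A ⧸ I)) ∈ {q : A ⧸ I | q * q = 1} := by
      show (QuotientGroup.mk x : A ⧸ I) * QuotientGroup.mk x = 1
      rw [← QuotientGroup.mk_mul]
      exact (QuotientGroup.eq_one_iff _).2 hxx
    rcases hν (QuotientGroup.mk x : A ⧸ I) with h1 | h1
    · exact (QuotientGroup.eq_one_iff _).1 h1
    · exfalso
      apply h1
      have h2 : (QuotientGroup.mk x : A ⧸ I) = QuotientGroup.mk (Quotient.out (QuotientGroup.mk x : A ⧸ I)) := by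
        exact (Quotient.out_eq _).symm
      have h3 := QuotientGroup.eq.1 h2
      have h4 : x⁻¹ * Quotient.out (QuotientGroup.mk x : A ⧸ I) ∈ H (ν (QuotientGroup.mk x : A ⧸ I)) :=
        (iInf_le H _) h3
      have h5 : x ∈ H (ν (QuotientGroup.mk x : A ⧸ I)) := hH (hN _ hq) hx
      have := mul_mem h5 h4
      simpa using this
  have hNI : H N = I := by
    apply le_antisymm
    · intro x hx
      by_contra hxI
      obtain ⟨k, hk⟩ := hE x
      have hex : ∃ k, x ^ (2 ^ k : ℕ) ∈ I := ⟨k, by rw [hk]; exact one_mem _⟩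
      have hk1 := Nat.find_spec hex
      have hk0 : Nat.find hex ≠ 0 := by
        intro h0
        rw [h0] at hk1
        simp at hk1
        exact hxI hk1
      obtain ⟨j, hj⟩ := Nat.exists_eq_succ_of_ne_zero hk0
      have hj1 : x ^ (2 ^ j : ℕ) ∉ I := Nat.find_min hex (by omega)
      apply hj1
      apply key _ (pow_mem hx _)
      rw [hj] at hk1
      rw [← pow_add, ← two_mul, ← pow_succ']
      exact hk1
    · exact iInf_le H N
  refine ⟨N, fun n hn => le_antisymm (hH hn) ?_⟩
  rw [hNI]
  exact iInf_le H n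

end comm

section noncomm
variable {P : Type*} [Group P]

/-- transfer to a subgroup. -/
theorem dcc_sub (A : Subgroup P) (hc : ∀ x ∈ A, ∀ y ∈ A, x * y = y * x)
    (hE : ∀ x ∈ A, E2 x) (h : {x : P | x ∈ A ∧ x * x = 1}.Finite)
    (H : ℕ → Subgroup P) (hH : Antitone H) (hHA : ∀ n, H n ≤ A) : ∃ N : ℕ, ∀ n ≥ N, H n = H N := by
  letI : CommGroup A := { (inferInstance : Group A) with mul_comm := fun x y => Subtype.ext (hc x x.2 y y.2) }
  obtain ⟨N, hN⟩ := dcc_comm (A := A) (fun x => by
      obtain ⟨k, hk⟩ := hE x x.2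
      exact ⟨k, Subtype.ext (by simpa using hk)⟩)
    (by
      refine Set.Finite.of_finite_image (f := Subtype.val) (h.subset ?_) Subtype.val_injective.injOn
      rintro _ ⟨x, hx, rfl⟩
      refine ⟨x.2, ?_⟩
      have : ((x * x : A) : P) = 1 := by rw [hx]; rfl
      simpa using this)
    (fun n => (H n).subgroupOf A) (fun a b hab x hx => by
      rw [Subgroup.mem_subgroupOf] at hx ⊢
      exact hH hab hx)
  refine ⟨N, fun n hn => ?_⟩
  have := hN n hn
  have h2 := Subgroup.subgroupOf_inj.1 this
  rwa [inf_eq_left.2 (hHA n), inf_eq_left.2 (hHA N)] at h2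

theorem relIndex_ne_zero (A I : Subgroup P) (hc : ∀ x ∈ A, ∀ y ∈ A, x * y = y * x)
    (hE : ∀ x ∈ A, E2 x) (h : {x : P | x ∈ A ∧ x * x = 1}.Finite)
    (hsq : ∀ x ∈ A, x * x ∈ I) : I.relIndex A ≠ 0 := by
  letI : CommGroup A := { (inferInstance : Group A) with mul_comm := fun x y => Subtype.ext (hc x x.2 y y.2) }
  have := quot_finite (A := A) (fun x => by
      obtain ⟨k, hk⟩ := hE x x.2
      exact ⟨k, Subtype.ext (by simpa using hk)⟩)
    (by
      refine Set.Finite.of_finite_image (f := Subtype.val) (h.subset ?_) Subtype.val_injective.injOn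
      rintro _ ⟨x, hx, rfl⟩
      refine ⟨x.2, ?_⟩
      have : ((x * x : A) : P) = 1 := by rw [hx]; rfl
      simpa using this) (I.subgroupOf A)
  have hall : {q : A ⧸ I.subgroupOf A | q * q = 1} = Set.univ := by
    ext q
    simp only [Set.mem_univ, iff_true]
    induction q using QuotientGroup.induction_on with
    | H x =>
      show (QuotientGroup.mk x : A ⧸ I.subgroupOf A) * QuotientGroup.mk x = 1
      rw [← QuotientGroup.mk_mul]
      refine (QuotientGroup.eq_one_iff _).2 ?_
      rw [Subgroup.mem_subgroupOf]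
      simpa using hsq x x.2
  rw [hall, Set.finite_univ_iff] at this
  unfold Subgroup.relIndex
  exact Subgroup.index_ne_zero_iff_finite.2 this

theorem finite_pow_sub (A : Subgroup P) (hc : ∀ x ∈ A, ∀ y ∈ A, x * y = y * x)
    (h : {x : P | x ∈ A ∧ x * x = 1}.Finite) (k : ℕ) :
    {x : P | x ∈ A ∧ x ^ (2 ^ k : ℕ) = 1}.Finite := by
  letI : CommGroup A := { (inferInstance : Group A) with mul_comm := fun x y => Subtype.ext (hc x x.2 y y.2) }
  have := finite_pow (A := A) (by
      refine Set.Finite.of_finite_image (f := Subtype.val) (h.subset ?_) Subtype.val_injective.injOn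
      rintro _ ⟨x, hx, rfl⟩
      refine ⟨x.2, ?_⟩
      have : ((x * x : A) : P) = 1 := by rw [hx]; rfl
      simpa using this) k
  refine (this.image Subtype.val).subset ?_
  rintro x ⟨hx, hk⟩
  refine ⟨⟨x, hx⟩, ?_, rfl⟩
  show (⟨x, hx⟩ : A) ^ (2 ^ k : ℕ) = 1
  exact Subtype.ext (by simpa using hk)

end noncomm

end Pool.Agent.Helper45.Cern
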