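import Mathlib
import Pool.Agent.Helper12.Defs
import Pool.Agent.Helper45.Cern.Comm

set_option autoImplicit false
set_option linter.all false

namespace Pool.Agent.Helper45.Cern
open Pool.Agent.Helper12.TwoLen

variable {P : Type*} [Group P]

theorem mem_sSup_chain {c : Set (Subgroup P)} (hne : c.Nonempty) (hc : IsChain (· ≤ ·) c) {x : P} :
    x ∈ sSup c ↔ ∃ K ∈ c, x ∈ K :=
  Subgroup.mem_sSup_of_directedOn hne hc.directedOn

theorem exists_maximal_of (Φ : Subgroup P → Prop) (K0 : Subgroup P) (h0 : Φ K0)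
    (hch : ∀ c : Set (Subgroup P), c.Nonempty → IsChain (· ≤ ·) c → (∀ K ∈ c, Φ K) → Φ (sSup c)) :
    ∃ K, K0 ≤ K ∧ Φ K ∧ ∀ K', K ≤ K' → Φ K' → K' ≤ K := by
  obtain ⟨m, hm, hmax⟩ := zorn_le_nonempty₀ {K | Φ K} (fun c hcs hc y hy =>
    ⟨sSup c, hch c ⟨y, hy⟩ hc hcs, fun z hz => le_sSup hz⟩) K0 h0
  exact ⟨m, hm, hmax.1, fun K' hK hΦ => hmax.2 hΦ hK⟩

theorem exists_maximal_rel (R : P → P → Prop) (K0 : Subgroup P)
    (h0 : ∀ x ∈ K0, ∀ y ∈ K0, R x y) :
    ∃ K, K0 ≤ K ∧ (∀ x ∈ K, ∀ y ∈ K, R x y) ∧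
      ∀ K', K ≤ K' → (∀ x ∈ K', ∀ y ∈ K', R x y) → K' ≤ K := by
  refine exists_maximal_of (fun K => ∀ x ∈ K, ∀ y ∈ K, R x y) K0 h0 ?_
  intro c hne hc hall x hx y hy
  obtain ⟨K1, hK1, hx1⟩ := (mem_sSup_chain hne hc).1 hx
  obtain ⟨K2, hK2, hy2⟩ := (mem_sSup_chain hne hc).1 hy
  rcases hc.total hK1 hK2 with h | h
  · exact hall K2 hK2 x (h hx1) y hy2
  · exact hall K1 hK1 x hx1 y (h hy2)

theorem closure_comm {S : Set P} (h : ∀ x ∈ S, ∀ y ∈ S, x * y = y * x) :
    ∀ x ∈ Subgroup.closure S, ∀ y ∈ Subgroup.closure S, x * y = y * x := by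
  have h1 : Subgroup.closure S ≤ Subgroup.centralizer S := by
    rw [Subgroup.closure_le]
    intro x hx
    rw [SetLike.mem_coe, Subgroup.mem_centralizer_iff]
    intro y hy
    exact h y hy x hx
  intro x hx y hy
  have h2 : Subgroup.closure S ≤ Subgroup.centralizer (Subgroup.closure S : Set P) := by
    rw [Subgroup.closure_le]
    intro x hx
    rw [SetLike.mem_coe, Subgroup.mem_centralizer_iff]
    intro y hy
    have := h1 hy
    rw [Subgroup.mem_centralizer_iff] at this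
    exact (this x hx).symm
  have := h2 hx
  rw [Subgroup.mem_centralizer_iff] at this
  exact (this y hy).symm

/-- the closure of commuting involutions. -/
theorem closure_exp2 {S : Set P} (h : ∀ x ∈ S, ∀ y ∈ S, x * y = y * x) (h2 : ∀ x ∈ S, x * x = 1) :
    ∀ x ∈ Subgroup.closure S, x * x = 1 := by
  intro x hx
  induction hx using Subgroup.closure_induction with
  | mem x hx => exact h2 x hx
  | one => simp
  | mul x y hx hy ihx ihy =>
    have hc := closure_comm h x hx y hy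
    calc x * y * (x * y) = x * (y * x) * y := by group
      _ = x * (x * y) * y := by rw [hc]
      _ = (x * x) * (y * y) := by group
      _ = 1 := by rw [ihx, ihy, one_mul]
  | inv x hx ihx => rw [← mul_inv_rev, ihx, inv_one]

theorem comm_of_exp2 {E : Subgroup P} (h : ∀ x ∈ E, x * x = 1) :
    ∀ x ∈ E, ∀ y ∈ E, x * y = y * x := by
  intro x hx y hy
  have h1 := h _ (mul_mem hx hy)
  have h2 := h x hx
  have h3 := h y hy
  have h4 : x⁻¹ = x := inv_eq_of_mul_eq_one_left h2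
  have h5 : y⁻¹ = y := inv_eq_of_mul_eq_one_left h3
  have h6 : (x * y)⁻¹ = x * y := inv_eq_of_mul_eq_one_left h1
  rw [mul_inv_rev, h4, h5] at h6
  exact h6.symm

/-- a nontrivial normal subgroup of a finite 2-group contains a central involution. -/
theorem exists_central {G : Type*} [Group G] [Finite G] (hG : ∀ x : G, E2 x) (N : Subgroup G)
    [hN : N.Normal] (hne : N ≠ ⊥) : ∃ z ∈ N, z ≠ 1 ∧ z * z = 1 ∧ ∀ g : G, g * z = z * g := by
  classical
  haveI : Fact (Nat.Prime 2) := ⟨Nat.prime_two⟩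
  have hp : IsPGroup 2 (ConjAct G) := by
    intro g
    obtain ⟨k, hk⟩ := hG (ConjAct.ofConjAct g)
    exact ⟨k, hk⟩
  have hpN : IsPGroup 2 N := by
    intro g
    obtain ⟨k, hk⟩ := hG g
    exact ⟨k, Subtype.ext (by simpa using hk)⟩
  haveI : Nontrivial N := (Subgroup.nontrivial_iff_ne_bot N).2 hne
  have hdvd : 2 ∣ Nat.card N := by
    obtain ⟨n, hn0, hn⟩ := (IsPGroup.nontrivial_iff_card hpN).1 inferInstance
    rw [hn]
    exact dvd_pow_self 2 (by omega)
  obtain ⟨b, hb, hb1⟩ := hp.exists_fixed_point_of_prime_dvd_card_of_fixed_point (α := N) hdvd (a := 1)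
    (by
      intro g
      apply Subtype.ext
      rw [ConjAct.Subgroup.val_conj_smul]
      simp)
  have hbc : ∀ g : G, g * (b : G) = b * g := by
    intro g
    have h1 := hb (ConjAct.toConjAct g)
    have h2 := congrArg Subtype.val h1
    rw [ConjAct.Subgroup.val_conj_smul, ConjAct.toConjAct_smul] at h2
    exact mul_inv_eq_iff_eq_mul.1 h2
  have hb1' : (b : G) ≠ 1 := fun h => hb1 (Subtype.ext h.symm)
  obtain ⟨k, hk⟩ := hG (b : G)
  have hex : ∃ k, (b : G) ^ (2 ^ k : ℕ) = 1 := ⟨k, hk⟩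
  have hs := Nat.find_spec hex
  have h0 : Nat.find hex ≠ 0 := by
    intro h0
    rw [h0] at hs
    simp at hs
    exact hb1 hs.symm
  obtain ⟨j, hj⟩ := Nat.exists_eq_succ_of_ne_zero h0
  refine ⟨(b : G) ^ (2 ^ j : ℕ), pow_mem b.2 _, Nat.find_min hex (by omega), ?_, ?_⟩
  · rw [hj] at hs
    rw [← pow_add, ← two_mul, ← pow_succ']
    exact hs
  · intro g
    exact (Commute.pow_right (hbc g) _)

/-- Lemma Z. -/
theorem exists_inf (hLF : LocFin P) (hE : ∀ x : P, E2 x) (C : Subgroup P) [hC : C.Normal]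
    (hne : C ≠ ⊥) (hcent : ∀ x ∈ C, (∀ g, g * x = x * g) → x = 1) :
    ∃ E ≤ C, (∀ x ∈ E, x * x = 1) ∧ ¬ Finite E := by
  classical
  obtain ⟨E, -, hER, hmax⟩ := exists_maximal_rel (P := P) (fun x _ => x ∈ C ∧ x * x = 1) ⊥
    (by
      intro x hx _ _
      rw [Subgroup.mem_bot] at hx
      subst hx
      exact ⟨one_mem _, one_mul 1⟩)
  have hEC : E ≤ C := fun x hx => (hER x hx x hx).1
  have hE2 : ∀ x ∈ E, x * x = 1 := fun x hx => (hER x hx x hx).2
  refine ⟨E, hEC, hE2, ?_⟩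
  intro hfin
  have hp : ∀ e : P, ∃ g : P, e ∈ E → e ≠ 1 → g * e ≠ e * g := by
    intro e
    by_cases he : e ∈ E ∧ e ≠ 1
    · by_contra hcon
      push Not at hcon
      exact he.2 (hcent e (hEC he.1) (fun g => (hcon g).2.2))
    · exact ⟨1, fun h1 h2 => absurd ⟨h1, h2⟩ he⟩
  choose p hp using hp
  obtain ⟨c0, hc0, hc01⟩ := (Subgroup.ne_bot_iff_exists_ne_one.1 hne : ∃ a : C, a ≠ 1) |>.elim
    (fun a ha => (⟨a, a.2, fun h => ha (Subtype.ext h)⟩ : ∃ c0 : P, c0 ∈ C ∧ c0 ≠ 1))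
  have hSfin : ((E : Set P) ∪ p '' (E : Set P) ∪ {c0}).Finite := by
    have : (E : Set P).Finite := hfin
    exact (this.union (this.image p)).union (Set.finite_singleton c0)
  set F := Subgroup.closure ((E : Set P) ∪ p '' (E : Set P) ∪ {c0}) with hF
  have hEF : (E : Set P) ⊆ F := fun x hx => Subgroup.subset_closure (Or.inl (Or.inl hx))
  haveI hFfin : Finite F := hLF F ⟨hSfin.toFinset, by rw [Set.Finite.coe_toFinset]⟩
  obtain ⟨z, hzC, hz1, hz2, hzc⟩ := exists_central (G := F) (fun x => by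
      obtain ⟨k, hk⟩ := hE x
      exact ⟨k, Subtype.ext (by simpa using hk)⟩) (C.subgroupOf F) (by
      intro hbot
      have : (⟨c0, Subgroup.subset_closure (Or.inr rfl)⟩ : F) ∈ C.subgroupOf F := by
        rw [Subgroup.mem_subgroupOf]; exact hc0
      rw [hbot, Subgroup.mem_bot] at this
      exact hc01 (congrArg Subtype.val this))
  have hzC' : (z : P) ∈ C := by rwa [Subgroup.mem_subgroupOf] at hzC
  have hz1' : (z : P) ≠ 1 := fun h => hz1 (Subtype.ext h)
  have hz2' : (z : P) * z = 1 := by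
    have := congrArg Subtype.val hz2
    simpa using this
  have hzc' : ∀ g ∈ F, g * (z : P) = z * g := by
    intro g hg
    have := congrArg Subtype.val (hzc ⟨g, hg⟩)
    simpa using this
  have hzE : (z : P) ∉ E := by
    intro hz
    exact hp z hz hz1' (hzc' _ (Subgroup.subset_closure (Or.inl (Or.inr ⟨z, hz, rfl⟩))))
  have hcomm : ∀ x ∈ (E : Set P) ∪ {(z : P)}, ∀ y ∈ (E : Set P) ∪ {(z : P)}, x * y = y * x := by
    rintro x (hx | hx) y (hy | hy)
    · exact comm_of_exp2 hE2 x hx y hy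
    · rw [Set.mem_singleton_iff] at hy; subst hy; exact hzc' x (hEF hx)
    · rw [Set.mem_singleton_iff] at hx; subst hx; exact (hzc' y (hEF hy)).symm
    · rw [Set.mem_singleton_iff] at hx hy; subst hx; subst hy; rfl
  have hsq : ∀ x ∈ (E : Set P) ∪ {(z : P)}, x * x = 1 := by
    rintro x (hx | hx)
    · exact hE2 x hx
    · rw [Set.mem_singleton_iff] at hx; subst hx; exact hz2'
  have hle := hmax (Subgroup.closure ((E : Set P) ∪ {(z : P)})) (fun x hx => Subgroup.subset_closure (Or.inl hx))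
    (fun x hx _ _ => ⟨by
        have : Subgroup.closure ((E : Set P) ∪ {(z : P)}) ≤ C := by
          rw [Subgroup.closure_le]
          rintro y (hy | hy)
          · exact hEC hy
          · rw [Set.mem_singleton_iff] at hy; subst hy; exact hzC'
        exact this hx, closure_exp2 hcomm hsq x hx⟩)
  exact hzE (hle (Subgroup.subset_closure (Or.inr rfl)))

end Pool.Agent.Helper45.Cern
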