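import Mathlib
import Pool.Agent.Helper12.Defs
import Pool.Agent.Helper45.Cern.Max

set_option autoImplicit false
set_option linter.all false

namespace Pool.Agent.Helper45.Cern
open Pool.Agent.Helper12.TwoLen

variable {P : Type*} [Group P]

/-- Lemma W. -/
theorem exists_abelian (X B : Subgroup P) (hBX : B ≤ X) (hBc : ∀ b ∈ B, ∀ x ∈ X, b * x = x * b)
    (hsq : ∀ x ∈ X, x * x ∈ B) (hcm : ∀ x ∈ X, ∀ y ∈ X, x * y * x⁻¹ * y⁻¹ ∈ B)
    (hfin : {x : P | x ∈ B ∧ x * x = 1}.Finite) (h0 : B.relIndex X = 0) :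
    ∃ Y : Subgroup P, B ≤ Y ∧ Y ≤ X ∧ (∀ x ∈ Y, ∀ y ∈ Y, x * y = y * x) ∧ B.relIndex Y = 0 := by
  classical
  obtain ⟨Y, hBY, hY, hmax⟩ := exists_maximal_rel (P := P) (fun x y => x ∈ X ∧ x * y = y * x) B
    (fun x hx y hy => ⟨hBX hx, hBc x hx y (hBX hy)⟩)
  have hYX : Y ≤ X := fun x hx => (hY x hx x hx).1
  have hYc : ∀ x ∈ Y, ∀ y ∈ Y, x * y = y * x := fun x hx y hy => (hY x hx y hy).2
  refine ⟨Y, hBY, hYX, hYc, ?_⟩
  by_contra hne
  -- the commutator homs
  let φ : X → (X →* P) := fun y =>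
    { toFun := fun x => (x : P) * y * (x : P)⁻¹ * (y : P)⁻¹
      map_one' := by simp
      map_mul' := by
        intro x x'
        have h1 : (x' : P) * y * (x' : P)⁻¹ * (y : P)⁻¹ ∈ B := hcm x' x'.2 y y.2
        have h2 := hBc _ h1 x x.2
        have h3 : (x : P) * y * (x : P)⁻¹ * (y : P)⁻¹ ∈ B := hcm x x.2 y y.2
        have h4 := hBc _ h1 _ (hBX h3)
        calc ((x * x' : X) : P) * y * ((x * x' : X) : P)⁻¹ * (y : P)⁻¹
            = (x : P) * ((x' : P) * y * (x' : P)⁻¹ * (y : P)⁻¹) * (y * (x : P)⁻¹ * (y : P)⁻¹) := by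
              simp only [Subgroup.coe_mul]; group
          _ = ((x' : P) * y * (x' : P)⁻¹ * (y : P)⁻¹) * ((x : P) * y * (x : P)⁻¹ * (y : P)⁻¹) := by
              rw [← h2]; group
          _ = _ := h4 }
  have hφ : ∀ y x : X, φ y x = (x : P) * y * (x : P)⁻¹ * (y : P)⁻¹ := fun _ _ => rfl
  have hrange : ∀ y : X, Finite (φ y).range := by
    intro y
    have : ((φ y).range : Set P) ⊆ {x : P | x ∈ B ∧ x * x = 1} := by
      rintro _ ⟨x, rfl⟩
      refine ⟨by rw [hφ]; exact hcm x x.2 y y.2, ?_⟩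
      rw [← map_mul, hφ]
      have := hBc _ (hsq x x.2) y y.2
      calc ((x * x : X) : P) * y * ((x * x : X) : P)⁻¹ * (y : P)⁻¹
          = ((x : P) * x) * y * ((x : P) * x)⁻¹ * (y : P)⁻¹ := by simp only [Subgroup.coe_mul]
        _ = 1 := by rw [this]; group
    exact (hfin.subset this).to_subtype
  have hker : ∀ y : X, (φ y).ker.FiniteIndex := by
    intro y
    haveI := hrange y
    exact Subgroup.finiteIndex_ker (φ y)
  haveI hfq : Finite (Y ⧸ B.subgroupOf Y) := Subgroup.index_ne_zero_iff_finite.1 hne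
  let K : Subgroup X := ⨅ q : Y ⧸ B.subgroupOf Y, (φ ⟨(Quotient.out q : Y), hYX (Quotient.out q : Y).2⟩).ker
  have hKfi : K.FiniteIndex := Subgroup.finiteIndex_iInf fun q => hker _
  have hKc : ∀ x ∈ K, ∀ y ∈ Y, (x : P) * y = y * x := by
    intro x hx y hy
    have h1 := (Subgroup.mem_iInf.1 hx) (QuotientGroup.mk (⟨y, hy⟩ : Y))
    rw [MonoidHom.mem_ker, hφ] at h1
    set r : Y := Quotient.out (QuotientGroup.mk (⟨y, hy⟩ : Y) : Y ⧸ B.subgroupOf Y) with hr
    have h2 : (x : P) * r = r * x := by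
      have := mul_inv_eq_one.1 h1
      exact mul_inv_eq_iff_eq_mul.1 this
    have h3 : (r : P)⁻¹ * y ∈ B := by
      have : (QuotientGroup.mk r : Y ⧸ B.subgroupOf Y) = QuotientGroup.mk (⟨y, hy⟩ : Y) := Quotient.out_eq _
      have := QuotientGroup.eq.1 this
      rw [Subgroup.mem_subgroupOf] at this
      simpa using this
    have h4 := hBc _ h3 x x.2
    calc (x : P) * y = (x * r) * ((r : P)⁻¹ * y) := by group
      _ = r * (x * ((r : P)⁻¹ * y)) := by rw [h2]; group
      _ = r * (((r : P)⁻¹ * y) * x) := by rw [h4]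
      _ = y * x := by group
  have hnot : ∃ x ∈ K, (x : P) ∉ Y := by
    by_contra hcon
    push Not at hcon
    have h1 : K ≤ Y.subgroupOf X := fun x hx => by
      rw [Subgroup.mem_subgroupOf]; exact hcon x hx
    have h2 : Y.relIndex X ≠ 0 := by
      have := Subgroup.finiteIndex_of_le h1
      exact this.index_ne_zero
    have h3 := Subgroup.relIndex_mul_relIndex B Y X hBY hYX
    rw [h0] at h3
    exact (mul_ne_zero hne h2) h3
  obtain ⟨x0, hx0, hx0Y⟩ := hnot
  have hcomm : ∀ x ∈ (Y : Set P) ∪ {(x0 : P)}, ∀ y ∈ (Y : Set P) ∪ {(x0 : P)}, x * y = y * x := by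
    rintro x (hx | hx) y (hy | hy)
    · exact hYc x hx y hy
    · rw [Set.mem_singleton_iff] at hy; subst hy; exact (hKc x0 hx0 x hx).symm
    · rw [Set.mem_singleton_iff] at hx; subst hx; exact (hKc x0 hx0 y hy)
    · rw [Set.mem_singleton_iff] at hx hy; subst hx; subst hy; rfl
  have hle := hmax (Subgroup.closure ((Y : Set P) ∪ {(x0 : P)})) (fun x hx => Subgroup.subset_closure (Or.inl hx))
    (fun x hx y hy => ⟨by
        have : Subgroup.closure ((Y : Set P) ∪ {(x0 : P)}) ≤ X := by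
          rw [Subgroup.closure_le]
          rintro y (hy | hy)
          · exact hYX hy
          · rw [Set.mem_singleton_iff] at hy; subst hy; exact x0.2
        exact this hx, closure_comm hcomm x hx y hy⟩)
  exact hx0Y (hle (Subgroup.subset_closure (Or.inr rfl)))

theorem locFin_quot (hLF : LocFin P) (B : Subgroup P) [B.Normal] : LocFin (P ⧸ B) := by
  classical
  intro H hH
  obtain ⟨S, hS⟩ := hH
  set T : Set P := Quotient.out '' (S : Set (P ⧸ B)) with hT
  have hTf : T.Finite := (Finset.finite_toSet S).image _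
  haveI : Finite (Subgroup.closure T) := hLF _ ⟨hTf.toFinset, by rw [Set.Finite.coe_toFinset]⟩
  have hle : H ≤ (Subgroup.closure T).map (QuotientGroup.mk' B) := by
    rw [← hS, Subgroup.closure_le]
    intro q hq
    refine ⟨Quotient.out q, Subgroup.subset_closure ⟨q, hq, rfl⟩, ?_⟩
    exact Quotient.out_eq _
  have hfin : ((Subgroup.closure T).map (QuotientGroup.mk' B) : Set (P ⧸ B)).Finite := by
    rw [Subgroup.coe_map]
    exact Set.Finite.image _ (Set.toFinite _)
  exact (hfin.subset hle).to_subtype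

theorem inv_finite (hfin : ∀ E : Subgroup P, (∀ x ∈ E, x * x = 1) → Finite E) (Y : Subgroup P)
    (hYc : ∀ x ∈ Y, ∀ y ∈ Y, x * y = y * x) : {x : P | x ∈ Y ∧ x * x = 1}.Finite := by
  let E : Subgroup P :=
    { carrier := {x : P | x ∈ Y ∧ x * x = 1}
      mul_mem' := by
        rintro x y ⟨hx, hx2⟩ ⟨hy, hy2⟩
        refine ⟨mul_mem hx hy, ?_⟩
        calc x * y * (x * y) = x * (y * x) * y := by group
          _ = x * (x * y) * y := by rw [hYc x hx y hy]
          _ = (x * x) * (y * y) := by group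
          _ = 1 := by rw [hx2, hy2, one_mul]
      one_mem' := ⟨one_mem _, one_mul 1⟩
      inv_mem' := by
        rintro x ⟨hx, hx2⟩
        exact ⟨inv_mem hx, by rw [← mul_inv_rev, hx2, inv_one]⟩ }
  have h : (E : Set P).Finite := hfin E (fun x hx => hx.2)
  exact h

/-- Lemma (c): a self-centralising normal abelian subgroup. -/
theorem exists_self_cent (hLF : LocFin P) (hE : ∀ x : P, E2 x)
    (hfin : ∀ E : Subgroup P, (∀ x ∈ E, x * x = 1) → Finite E) :
    ∃ B : Subgroup P, B.Normal ∧ (∀ x ∈ B, ∀ y ∈ B, x * y = y * x) ∧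
      ∀ x : P, (∀ b ∈ B, x * b = b * x) → x ∈ B := by
  classical
  obtain ⟨B, -, ⟨hBn, hBc⟩, hmax⟩ := exists_maximal_of (P := P)
    (fun K => K.Normal ∧ ∀ x ∈ K, ∀ y ∈ K, x * y = y * x) ⊥
    (by
      refine ⟨inferInstance, ?_⟩
      intro x hx y hy
      rw [Subgroup.mem_bot] at hx hy
      subst hx; subst hy; rfl)
    (by
      intro c hne hc hall
      refine ⟨⟨?_⟩, ?_⟩
      · intro x hx g
        obtain ⟨K, hK, hxK⟩ := (mem_sSup_chain hne hc).1 hx
        exact (mem_sSup_chain hne hc).2 ⟨K, hK, (hall K hK).1.conj_mem x hxK g⟩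
      · intro x hx y hy
        obtain ⟨K1, hK1, hx1⟩ := (mem_sSup_chain hne hc).1 hx
        obtain ⟨K2, hK2, hy2⟩ := (mem_sSup_chain hne hc).1 hy
        rcases hc.total hK1 hK2 with h | h
        · exact (hall K2 hK2).2 x (h hx1) y hy2
        · exact (hall K1 hK1).2 x hx1 y (h hy2))
  refine ⟨B, hBn, hBc, ?_⟩
  by_contra hcon
  push Not at hcon
  obtain ⟨x0, hx0, hx0B⟩ := hcon
  set C := Subgroup.centralizer (B : Set P) with hC
  have hmemC : ∀ x, x ∈ C ↔ ∀ b ∈ B, x * b = b * x := by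
    intro x
    rw [hC, Subgroup.mem_centralizer_iff]
    exact ⟨fun h b hb => (h b hb).symm, fun h b hb => (h b hb).symm⟩
  have hBC : B ≤ C := fun x hx => (hmemC x).2 (fun b hb => hBc x hx b hb)
  haveI hCn : C.Normal := by
    refine ⟨fun x hx g => (hmemC _).2 ?_⟩
    intro b hb
    have h1 : g⁻¹ * b * g ∈ B := by
      have := hBn.conj_mem b hb g⁻¹
      simpa using this
    have h2 := (hmemC x).1 hx _ h1
    calc g * x * g⁻¹ * b = g * (x * (g⁻¹ * b * g)) * g⁻¹ := by group
      _ = g * ((g⁻¹ * b * g) * x) * g⁻¹ := by rw [h2]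
      _ = b * (g * x * g⁻¹) := by group
  haveI := hBn
  set C' := C.map (QuotientGroup.mk' B) with hC'
  haveI hC'n : C'.Normal := Subgroup.Normal.map hCn _ (QuotientGroup.mk'_surjective B)
  have hne : C' ≠ ⊥ := by
    intro hbot
    have : (QuotientGroup.mk' B) x0 ∈ C' := ⟨x0, (hmemC x0).2 hx0, rfl⟩
    rw [hbot, Subgroup.mem_bot] at this
    exact hx0B ((QuotientGroup.eq_one_iff x0).1 this)
  have hcent : ∀ x ∈ C', (∀ g, g * x = x * g) → x = 1 := by
    rintro _ ⟨c, hc, rfl⟩ hg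
    have hcg : ∀ g : P, g * c * g⁻¹ * c⁻¹ ∈ B := by
      intro g
      have h1 := hg (QuotientGroup.mk' B g)
      rw [← map_mul, ← map_mul] at h1
      have h2 := (QuotientGroup.eq (s := B)).1 h1.symm
      -- (c*g)⁻¹ * (g*c) ∈ B
      have h3 := hBn.conj_mem _ h2 (c * g)
      have h4 : c * g * ((c * g)⁻¹ * (g * c)) * (c * g)⁻¹ = g * c * g⁻¹ * c⁻¹ := by group
      rwa [h4] at h3
    have hcC := (hmemC c).1 hc
    have hcomm : ∀ x ∈ (B : Set P) ∪ {c}, ∀ y ∈ (B : Set P) ∪ {c}, x * y = y * x := by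
      rintro x (hx | hx) y (hy | hy)
      · exact hBc x hx y hy
      · rw [Set.mem_singleton_iff] at hy; subst hy; exact (hcC x hx).symm
      · rw [Set.mem_singleton_iff] at hx; subst hx; exact (hcC y hy)
      · rw [Set.mem_singleton_iff] at hx hy; subst hx; subst hy; rfl
    have hle := hmax (Subgroup.closure ((B : Set P) ∪ {c})) (fun x hx => Subgroup.subset_closure (Or.inl hx))
      ⟨⟨by
        intro n hn g
        induction hn using Subgroup.closure_induction with
        | mem x hx =>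
          rcases hx with hx | hx
          · exact Subgroup.subset_closure (Or.inl (hBn.conj_mem x hx g))
          · rw [Set.mem_singleton_iff] at hx; subst hx
            have : g * x * g⁻¹ = (g * x * g⁻¹ * x⁻¹) * x := by group
            rw [this]
            exact mul_mem (Subgroup.subset_closure (Or.inl (hcg g))) (Subgroup.subset_closure (Or.inr rfl))
        | one => simp
        | mul x y _ _ ihx ihy =>
          have : g * (x * y) * g⁻¹ = (g * x * g⁻¹) * (g * y * g⁻¹) := by group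
          rw [this]; exact mul_mem ihx ihy
        | inv x _ ihx =>
          have : g * x⁻¹ * g⁻¹ = (g * x * g⁻¹)⁻¹ := by group
          rw [this]; exact inv_mem ihx⟩, closure_comm hcomm⟩
    exact (QuotientGroup.eq_one_iff c).2 (hle (Subgroup.subset_closure (Or.inr rfl)))
  obtain ⟨E, hEC, hE2, hEinf⟩ := exists_inf (P := P ⧸ B) (locFin_quot hLF B) (by
      intro q
      induction q using QuotientGroup.induction_on with
      | H x =>
        obtain ⟨k, hk⟩ := hE x
        exact ⟨k, by rw [← QuotientGroup.mk_pow, hk]; rfl⟩) C' hne hcent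
  set X := E.comap (QuotientGroup.mk' B) with hX
  have hmemX : ∀ x, x ∈ X ↔ QuotientGroup.mk' B x ∈ E := fun x => Iff.rfl
  have hBX : B ≤ X := by
    intro b hb
    rw [hmemX]
    have : QuotientGroup.mk' B b = 1 := (QuotientGroup.eq_one_iff b).2 hb
    rw [this]; exact one_mem _
  have hXC : X ≤ C := by
    intro x hx
    obtain ⟨c, hc, hcx⟩ := hEC ((hmemX x).1 hx)
    have h1 : c⁻¹ * x ∈ B := QuotientGroup.eq.1 hcx
    have := mul_mem hc (hBC h1)
    simpa using this
  have hE2c := comm_of_exp2 hE2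
  have hsq : ∀ x ∈ X, x * x ∈ B := by
    intro x hx
    have := hE2 _ ((hmemX x).1 hx)
    rw [← map_mul] at this
    exact (QuotientGroup.eq_one_iff _).1 this
  have hcm : ∀ x ∈ X, ∀ y ∈ X, x * y * x⁻¹ * y⁻¹ ∈ B := by
    intro x hx y hy
    have h1 := hE2c _ ((hmemX x).1 hx) _ ((hmemX y).1 hy)
    refine (QuotientGroup.eq_one_iff _).1 ?_
    show QuotientGroup.mk' B (x * y * x⁻¹ * y⁻¹) = 1
    rw [map_mul, map_mul, map_mul, h1, map_inv, map_inv]
    group
  have hrel : B.relIndex X = 0 := by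
    have h1 := Subgroup.relIndex_ker X (QuotientGroup.mk' B)
    rw [QuotientGroup.ker_mk'] at h1
    rw [h1, hX, Subgroup.map_comap_eq_self_of_surjective (QuotientGroup.mk'_surjective B)]
    rw [Nat.card_eq_zero]
    right
    rwa [not_finite_iff_infinite] at hEinf
  obtain ⟨Y, hBY, hYX, hYc, hY0⟩ := exists_abelian X B hBX
    (fun b hb x hx => ((hmemC x).1 (hXC hx) b hb).symm) hsq hcm (inv_finite hfin B hBc) hrel
  exact relIndex_ne_zero Y B hYc (fun x _ => hE x) (inv_finite hfin Y hYc) (fun x hx => hsq x (hYX hx)) hY0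

end Pool.Agent.Helper45.Cern
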